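import Pool.Agent.H85.RT.Defs

/-!
# Systems with fourfold mixing at a logarithmic rate: definitions
-/

namespace Pool.Agent.H85.RTY

open MeasureTheory

universe u

/-- `|∫ d₁(T^{n₁} x) ⋯ d_k(T^{n_k} x) dμ| ≤ C / (log g)^a` for all `d₁, …, d_k` in `D`, with a `C`
depending on `d₁, …, d_k`, and all `n₁, …, n_k` with pairwise distances at least `g ≥ 2` -/
def MixOrder {X : Type u} [MeasurableSpace X] (k : ℕ) (T : X ≃ᵐ X) (μ : Measure X) (a : ℝ)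
    (D : Set (X → ℝ)) : Prop :=
  ∀ d : Fin k → X → ℝ, (∀ i, d i ∈ D) → ∃ C : ℝ, ∀ g : ℕ, 2 ≤ g → ∀ n : Fin k → ℕ,
    (∀ i j, i ≠ j → n i + g ≤ n j ∨ n j + g ≤ n i) →
      |∫ x, ∏ i, d i (T^[n i] x) ∂μ| ≤ C / Real.log g ^ a

/-- systems for which a set `D` of bounded functions with twofold and fourfold mixing at the rate
`(log g)^(-a)`, `a > 1`, spans an `L¹` dense subspace of the bounded functions with integral
zero -/
def IsMix4 {X : Type u} [MeasurableSpace X] (T : X ≃ᵐ X) (μ : Measure X) : Prop :=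
  ∃ (a : ℝ) (D : Set (X → ℝ)), 1 < a ∧ (∀ d ∈ D, Measurable d ∧ ∃ K, ∀ x, |d x| ≤ K) ∧
    MixOrder 2 T μ a D ∧ MixOrder 4 T μ a D ∧
    ∀ f : X → ℂ, MemLp f ⊤ μ → ∫ x, f x ∂μ = 0 → ∀ ε : ℝ, 0 < ε →
      ∃ (k : ℕ) (d : Fin k → X → ℝ) (c : Fin k → ℂ), (∀ i, d i ∈ D) ∧
        ∫ x, ‖f x - ∑ i, c i * (d i x : ℂ)‖ ∂μ ≤ ε

end Pool.Agent.H85.RTY
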