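import Pool.Agent.H85.RTY.Pair
import Pool.Agent.H85.RTX.Final

/-!
# Double recurrence averages with arbitrary bounded weights in systems with fourfold mixing
-/

namespace Pool.Agent.H85.RTY

open MeasureTheory Finset Filter Topology
open Pool.Agent.H85.RT Pool.Agent.H85.RTM Pool.Agent.H85.RTX

universe u v

variable {X : Type u} [MeasurableSpace X] {μ : Measure X} [IsProbabilityMeasure μ]

omit [IsProbabilityMeasure μ] in
theorem Bz_smul_left {T : X ≃ᵐ X} {f g : X → ℝ} {w : ℕ → ℝ} {x : X} (c : ℝ) (h : Bz T f g w x) :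
    Bz T (fun x => c * f x) g w x := by
  have h3 := Tendsto.const_mul c h
  rw [mul_zero] at h3
  refine h3.congr fun N => ?_
  rw [← mul_div_assoc, Finset.mul_sum]
  congr 1
  refine Finset.sum_congr rfl fun n _ => ?_
  ring

omit [IsProbabilityMeasure μ] in
theorem Bz_zero_left {T : X ≃ᵐ X} {g : X → ℝ} {w : ℕ → ℝ} {x : X} :
    Bz T (fun _ => 0) g w x := by
  unfold Bz
  simp

omit [IsProbabilityMeasure μ] in
theorem Bz_sum_left {T : X ≃ᵐ X} {k : ℕ} {d : Fin k → X → ℝ} {g : X → ℝ} {w : ℕ → ℝ} {x : X}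
    (c : Fin k → ℝ) (h : ∀ i, Bz T (d i) g w x) : Bz T (fun x => ∑ i, c i * d i x) g w x := by
  induction k with
  | zero => simpa using (Bz_zero_left : Bz T (fun _ => 0) g w x)
  | succ k ih =>
    simp_rw [Fin.sum_univ_succ]
    exact Bz_add_left (Bz_smul_left (c 0) (h 0)) (ih (fun i => c i.succ) fun i => h i.succ)

/-- `f` is an `L¹` limit of combinations of members of `D` -/
def Clo (μ : Measure X) (D : Set (X → ℝ)) (f : X → ℝ) : Prop :=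
  ∀ ε : ℝ, 0 < ε → ∃ (k : ℕ) (d : Fin k → X → ℝ) (c : Fin k → ℝ), (∀ i, d i ∈ D) ∧
    ∫ x, |f x - ∑ i, c i * d i x| ∂μ ≤ ε

theorem clo_left {T : X ≃ᵐ X} (hT : MeasurePreserving T μ μ) {D : Set (X → ℝ)}
    (hD : ∀ d ∈ D, Measurable d ∧ ∃ K, ∀ x, |d x| ≤ K) {f g : X → ℝ} (hf : Measurable f)
    (hfb : ∀ x, |f x| ≤ 1) {L : ℝ} (hgb : ∀ x, |g x| ≤ L) (hcl : Clo μ D f) {w : ℕ → ℝ}
    (hw : ∀ n, |w n| ≤ 1) (h : ∀ d ∈ D, ∀ᵐ x ∂μ, Bz T d g w x) : ∀ᵐ x ∂μ, Bz T f g w x := by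
  refine approx_left hT hf hfb hgb hw fun ε hε => ?_
  obtain ⟨k, d, c, hd, hdi⟩ := hcl ε hε
  refine ⟨fun x => ∑ i, c i * d i x, ?_, ?_, hdi, ?_⟩
  · exact Finset.measurable_sum _ fun i _ => ((hD _ (hd i)).1).const_mul _
  · have hK : ∀ i, ∃ K, ∀ x, |d i x| ≤ K := fun i => (hD _ (hd i)).2
    choose K hK using hK
    refine ⟨∑ i, |c i| * K i, fun x => ?_⟩
    refine (Finset.abs_sum_le_sum_abs _ _).trans (Finset.sum_le_sum fun i _ => ?_)
    rw [abs_mul]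
    exact mul_le_mul_of_nonneg_left (hK i x) (abs_nonneg _)
  · have hall : ∀ᵐ x ∂μ, ∀ i, Bz T (d i) g w x := ae_all_iff.mpr fun i => h _ (hd i)
    filter_upwards [hall] with x hx
    exact Bz_sum_left c hx

theorem clo_right {T : X ≃ᵐ X} (hT : MeasurePreserving T μ μ) {D : Set (X → ℝ)}
    (hD : ∀ d ∈ D, Measurable d ∧ ∃ K, ∀ x, |d x| ≤ K) {f g : X → ℝ} (hg : Measurable g)
    (hgb : ∀ x, |g x| ≤ 1) {L : ℝ} (hfb : ∀ x, |f x| ≤ L) (hcl : Clo μ D g) {w : ℕ → ℝ}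
    (hw : ∀ n, |w n| ≤ 1) (h : ∀ d ∈ D, ∀ᵐ x ∂μ, Bz T f d w x) : ∀ᵐ x ∂μ, Bz T f g w x := by
  have h1 := clo_left (T := T.symm) (hT.symm T) hD hg hgb hfb hcl hw (fun d hd => ?_)
  · filter_upwards [h1] with x hx
    exact Bz_swap.mp hx
  · filter_upwards [h d hd] with x hx
    exact Bz_swap.mpr hx

/-- the real part and the imaginary part of a function in the closure -/
theorem clo_of {D : Set (X → ℝ)} (hD : ∀ d ∈ D, Measurable d ∧ ∃ K, ∀ x, |d x| ≤ K)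
    {f : X → ℂ} (hf : MemLp f ⊤ μ) {c : ℝ} (hc : 0 < c) {f1 f2 : X → ℝ} (hm1 : Measurable f1)
    (hm2 : Measurable f2) (hb1 : ∀ x, |f1 x| ≤ 1 / 2) (hb2 : ∀ x, |f2 x| ≤ 1 / 2)
    (he : f =ᵐ[μ] fun x => (c : ℂ) * ((f1 x : ℂ) + Complex.I * (f2 x : ℂ)))
    (hcl : ∀ ε : ℝ, 0 < ε → ∃ (k : ℕ) (d : Fin k → X → ℝ) (c : Fin k → ℂ), (∀ i, d i ∈ D) ∧
        ∫ x, ‖f x - ∑ i, c i * (d i x : ℂ)‖ ∂μ ≤ ε) : Clo μ D f1 ∧ Clo μ D f2 := by
  have hi : Integrable f μ := hf.integrable le_top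
  have hint : ∀ (k : ℕ) (d : Fin k → X → ℝ) (b : Fin k → ℂ), (∀ i, d i ∈ D) →
      Integrable (fun x => f x - ∑ i, b i * (d i x : ℂ)) μ := by
    intro k d b hd
    refine hi.sub (integrable_finsetSum _ fun i _ => ?_)
    obtain ⟨K, hK⟩ := (hD _ (hd i)).2
    have : Integrable (d i) μ := int_of_bdd (hD _ (hd i)).1 (C := K) hK
    exact (this.ofReal).const_mul _
  have key : ∀ (L : ℂ →L[ℝ] ℝ) (hL : ∀ z, |L z| ≤ ‖z‖) (h' : X → ℝ) (hm' : Measurable h')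
      (hb' : ∀ x, |h' x| ≤ 1 / 2) (he' : (fun x => L (f x)) =ᵐ[μ] fun x => c * h' x),
      Clo μ D h' := by
    intro L hL h' hm' hb' he' ε hε
    obtain ⟨k, d, b, hd, hdi⟩ := hcl (c * ε) (mul_pos hc hε)
    refine ⟨k, d, fun i => c⁻¹ * L (b i), hd, ?_⟩
    have h3 : (fun x => |h' x - ∑ i, c⁻¹ * L (b i) * d i x|) ≤ᵐ[μ]
        fun x => c⁻¹ * ‖f x - ∑ i, b i * (d i x : ℂ)‖ := by
      filter_upwards [he'] with x hx
      have h4 : h' x - ∑ i, c⁻¹ * L (b i) * d i x =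
          c⁻¹ * L (f x - ∑ i, b i * (d i x : ℂ)) := by
        rw [map_sub, map_sum, hx, mul_sub, inv_mul_cancel_left₀ hc.ne', Finset.mul_sum]
        congr 1
        refine Finset.sum_congr rfl fun i _ => ?_
        have h5 : b i * (d i x : ℂ) = d i x • b i := by
          rw [Complex.real_smul, mul_comm]
        rw [h5, map_smul, smul_eq_mul]
        ring
      rw [h4, abs_mul, abs_of_pos (inv_pos.mpr hc)]
      exact mul_le_mul_of_nonneg_left (hL _) (inv_pos.mpr hc).le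
    have h6 := integral_mono_ae (μ := μ) (f := fun x => |h' x - ∑ i, c⁻¹ * L (b i) * d i x|)
      (g := fun x => c⁻¹ * ‖f x - ∑ i, b i * (d i x : ℂ)‖) ?_ ((hint k d b hd).norm.const_mul _) h3
    · refine h6.trans ?_
      rw [integral_const_mul, inv_mul_le_iff₀ hc]
      exact hdi
    · have i1 : Integrable h' μ := int_of_bdd hm' (C := 1 / 2) hb'
      refine (i1.sub (integrable_finsetSum _ fun i _ => ?_)).abs
      obtain ⟨K, hK⟩ := (hD _ (hd i)).2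
      exact (int_of_bdd (hD _ (hd i)).1 (C := K) hK).const_mul _
  constructor
  · refine key Complex.reCLM (fun z => Complex.abs_re_le_norm z) f1 hm1 hb1 ?_
    filter_upwards [he] with x hx
    rw [hx]
    simp
  · refine key Complex.imCLM (fun z => Complex.abs_im_le_norm z) f2 hm2 hb2 ?_
    filter_upwards [he] with x hx
    rw [hx]
    simp

/-- two functions with integral zero, or one and a constant -/
theorem mix_zero {T : X ≃ᵐ X} (hT : MeasurePreserving T μ μ) {f g : X → ℂ} (hf : MemLp f ⊤ μ)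
    (hg : MemLp g ⊤ μ)
    (hreal : ∀ (c : ℝ) (f1 f2 : X → ℝ) (c' : ℝ) (g1 g2 : X → ℝ), 0 < c → 0 < c' →
      Measurable f1 → Measurable f2 → (∀ x, |f1 x| ≤ 1 / 2) → (∀ x, |f2 x| ≤ 1 / 2) →
      Measurable g1 → Measurable g2 → (∀ x, |g1 x| ≤ 1 / 2) → (∀ x, |g2 x| ≤ 1 / 2) →
      (f =ᵐ[μ] fun x => (c : ℂ) * ((f1 x : ℂ) + Complex.I * (f2 x : ℂ))) →
      (g =ᵐ[μ] fun x => (c' : ℂ) * ((g1 x : ℂ) + Complex.I * (g2 x : ℂ))) →
      ∀ w : ℕ → ℝ, (∀ n, |w n| ≤ 1) →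
        (∀ᵐ x ∂μ, Bz T f1 g1 w x) ∧ (∀ᵐ x ∂μ, Bz T f1 g2 w x) ∧ (∀ᵐ x ∂μ, Bz T f2 g1 w x) ∧
          (∀ᵐ x ∂μ, Bz T f2 g2 w x))
    {w : ℕ → ℂ} (hw : ∃ C : ℝ, ∀ n, ‖w n‖ ≤ C) :
    ∀ᵐ x ∂μ, Z0 (fun n => f (T^[n] x) * g (T.symm^[n] x) * w n) := by
  obtain ⟨c, f1, f2, hc, hf1, hf2, hf1b, hf2b, hfe⟩ := rep hf
  obtain ⟨c', g1, g2, hc', hg1, hg2, hg1b, hg2b, hge⟩ := rep hg
  obtain ⟨K, w1, w2, hw1, hw2, hwe⟩ := split_w hw
  have hTs : MeasurePreserving T.symm μ μ := hT.symm T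
  obtain ⟨r1, r2, r3, r4⟩ := hreal c f1 f2 c' g1 g2 hc hc' hf1 hf2 hf1b hf2b hg1 hg2 hg1b hg2b
    hfe hge w1 hw1
  obtain ⟨r5, r6, r7, r8⟩ := hreal c f1 f2 c' g1 g2 hc hc' hf1 hf2 hf1b hf2b hg1 hg2 hg1b hg2b
    hfe hge w2 hw2
  filter_upwards [ae_orbit hT hfe, ae_orbit hTs hge, r1, r2, r3, r4, r5, r6, r7, r8]
    with x a1 a2 b1 b2 b3 b4 b5 b6 b7 b8
  have z1 := Z0_of_range b1
  have z2 := Z0_of_range b2
  have z3 := Z0_of_range b3
  have z4 := Z0_of_range b4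
  have z5 := Z0_of_range b5
  have z6 := Z0_of_range b6
  have z7 := Z0_of_range b7
  have z8 := Z0_of_range b8
  have hall := ((((z1.add (z2.mul Complex.I)).add (z3.mul Complex.I)).add (z4.mul (-1))).add
    ((((z5.mul Complex.I).add (z6.mul (-1))).add (z7.mul (-1))).add (z8.mul (-Complex.I)))).mul
    ((c : ℂ) * c' * K)
  refine hall.congr fun n => ?_
  rw [a1 n, a2 n, hwe n]
  push_cast
  have hI : Complex.I ^ 2 = -1 := Complex.I_sq
  generalize ((f1 (T^[n] x) : ℝ) : ℂ) = p1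
  generalize ((f2 (T^[n] x) : ℝ) : ℂ) = p2
  generalize ((g1 (T.symm^[n] x) : ℝ) : ℂ) = q1
  generalize ((g2 (T.symm^[n] x) : ℝ) : ℂ) = q2
  generalize ((w1 n : ℝ) : ℂ) = v1
  generalize ((w2 n : ℝ) : ℂ) = v2
  linear_combination ((c : ℂ) * c' * K * (p2 * q2 * v1 + p1 * q2 * v2 + p2 * q1 * v2 +
    Complex.I * p2 * q2 * v2)) * hI

/-- the main theorem for one system -/
theorem mix_main {T : X ≃ᵐ X} (hT : MeasurePreserving T μ μ) (hmix : IsMix4 T μ) {f g : X → ℂ}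
    (hf : MemLp f ⊤ μ) (hg : MemLp g ⊤ μ) {w : ℕ → ℂ} (hw : ∃ C : ℝ, ∀ n, ‖w n‖ ≤ C) :
    ∀ᵐ x ∂μ, Tendsto (fun N : ℕ => avg T f g w N x -
      (∫ x, f x ∂μ) * (∫ x, g x ∂μ) * ((∑ n ∈ Finset.Icc 1 N, w n) / N)) atTop (𝓝 0) := by
  obtain ⟨a, D, ha, hD, h2, h4, hcl⟩ := hmix
  have hone : MemLp (fun _ : X => (1 : ℂ)) ⊤ μ := memLp_const _
  -- integral zero
  have hzero : ∀ f : X → ℂ, MemLp f ⊤ μ → MemLp (fun x => f x - ∫ y, f y ∂μ) ⊤ μ ∧
      ∫ x, (f x - ∫ y, f y ∂μ) ∂μ = 0 := by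
    intro f hf
    refine ⟨hf.sub (memLp_const _), ?_⟩
    rw [integral_sub (hf.integrable le_top) (integrable_const _)]
    simp
  obtain ⟨hf0, hf0i⟩ := hzero f hf
  obtain ⟨hg0, hg0i⟩ := hzero g hg
  have hhalf : ∀ {h : X → ℝ}, (∀ x, |h x| ≤ 1 / 2) → ∀ x, |h x| ≤ 1 := fun hb x =>
    (hb x).trans (by norm_num)
  -- constants
  have cst : ∀ (c' : ℝ) (g1 g2 : X → ℝ), 0 < c' →
      ((fun _ : X => (1 : ℂ)) =ᵐ[μ] fun x => (c' : ℂ) * ((g1 x : ℂ) + Complex.I * (g2 x : ℂ))) →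
      (g1 =ᵐ[μ] fun _ => c'⁻¹ * 1) ∧ (g2 =ᵐ[μ] fun _ => 0 * 1) := by
    intro c' g1 g2 hc' he
    constructor
    · filter_upwards [he] with x hx
      have h5 := congrArg Complex.re hx
      simp at h5
      rw [mul_one]
      field_simp
      linarith
    · filter_upwards [he] with x hx
      have h5 := congrArg Complex.im hx
      simp at h5
      rcases h5 with h5 | h5
      · exact absurd h5 hc'.ne'
      · rw [h5]; ring
  -- a pair in the closure and a multiple of the constant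
  have pc : ∀ (f1 g1 : X → ℝ) (s : ℝ) (w : ℕ → ℝ), Measurable f1 → (∀ x, |f1 x| ≤ 1 / 2) →
      Clo μ D f1 → (∀ n, |w n| ≤ 1) → (g1 =ᵐ[μ] fun _ => s * 1) →
      (∀ᵐ x ∂μ, Bz T f1 g1 w x) ∧ (∀ᵐ x ∂μ, Bz T g1 f1 w x) := by
    intro f1 g1 s w hm hb hc hw hg1
    have k1 : ∀ T' : X ≃ᵐ X, MeasurePreserving T' μ μ →
        (∀ d ∈ D, ∀ᵐ x ∂μ, Bz T' d (fun _ => 1) w x) → ∀ᵐ x ∂μ, Bz T' f1 g1 w x := by
      intro T' hT' hd
      have k2 := clo_left hT' hD hm (hhalf hb) (g := fun _ => (1 : ℝ)) (L := 1)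
        (fun _ => by norm_num) hc hw hd
      filter_upwards [k2, ae_orbit (hT'.symm T') hg1] with x hx hgx
      have k3 := Bz_smul_left s hx
      refine k3.congr fun N => ?_
      congr 1
      refine Finset.sum_congr rfl fun n _ => ?_
      rw [hgx n]
      ring
    constructor
    · exact k1 T hT fun d hd => by
        obtain ⟨hdm, K, hK⟩ := hD d hd
        exact single_null ha h2 hd hdm hK hw
    · have k4 := k1 T.symm (hT.symm T) fun d hd => by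
        obtain ⟨hdm, K, hK⟩ := hD d hd
        have h2' : MixOrder 2 T.symm μ a D := by
          intro d' hd'
          obtain ⟨C, hC⟩ := h2 (fun i => d' i.rev) (fun i => hd' _)
          refine ⟨C, fun g hg n hn => ?_⟩
          have hTi : ∀ i, Measurable (T^[i]) := fun i => T.measurable.iterate i
          have hTs : ∀ i, Measurable (T.symm^[i]) := fun i => T.symm.measurable.iterate i
          have hn' : ∀ i j : Fin 2, i ≠ j → n i + g ≤ n j ∨ n j + g ≤ n i := hn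
          have h5 := hC g hg n hn'
          refine le_trans (le_of_eq ?_) h5
          congr 1
          rw [← int_comp (hT.iterate (n 0 + n 1)) (F := fun x => ∏ i, d' i (T.symm^[n i] x))
            (Finset.measurable_prod _ fun i _ => ((hD _ (hd' i)).1).comp (hTs _))]
          refine integral_congr_ae (Eventually.of_forall fun x => ?_)
          simp only [Fin.prod_univ_two]
          have a1 : T.symm^[n 0] (T^[n 0 + n 1] x) = T^[n 1] x := by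
            rw [Function.iterate_add_apply]
            exact Function.LeftInverse.iterate (fun x => T.symm_apply_apply x) _ _
          have a2 : T.symm^[n 1] (T^[n 0 + n 1] x) = T^[n 0] x := by
            rw [Nat.add_comm, Function.iterate_add_apply]
            exact Function.LeftInverse.iterate (fun x => T.symm_apply_apply x) _ _
          rw [a1, a2, mul_comm]
          rfl
        exact single_null ha h2' hd hdm hK hw
      filter_upwards [k4] with x hx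
      exact Bz_swap.mp hx
  -- the three parts
  have p1 := mix_zero hT hf0 hg0 (w := w) (by
    intro c f1 f2 c' g1 g2 hc hc' hf1 hf2 hf1b hf2b hg1 hg2 hg1b hg2b hfe hge w hw
    obtain ⟨cf1, cf2⟩ := clo_of hD hf0 hc hf1 hf2 hf1b hf2b hfe (hcl _ hf0 hf0i)
    obtain ⟨cg1, cg2⟩ := clo_of hD hg0 hc' hg1 hg2 hg1b hg2b hge (hcl _ hg0 hg0i)
    have gen : ∀ (f1 g1 : X → ℝ), Measurable f1 → (∀ x, |f1 x| ≤ 1 / 2) → Clo μ D f1 →
        Measurable g1 → (∀ x, |g1 x| ≤ 1 / 2) → Clo μ D g1 → ∀ᵐ x ∂μ, Bz T f1 g1 w x := by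
      intro f1 g1 hf1 hf1b cf1 hg1 hg1b cg1
      refine clo_left hT hD hf1 (hhalf hf1b) (hhalf hg1b) cf1 hw fun d hd => ?_
      obtain ⟨hdm, K, hK⟩ := hD d hd
      refine clo_right hT hD hg1 (hhalf hg1b) hK cg1 hw fun e he => ?_
      obtain ⟨hem, L, hL⟩ := hD e he
      exact pair_null hT ha h4 hd he hdm hem hK hL hw
    exact ⟨gen f1 g1 hf1 hf1b cf1 hg1 hg1b cg1, gen f1 g2 hf1 hf1b cf1 hg2 hg2b cg2,
      gen f2 g1 hf2 hf2b cf2 hg1 hg1b cg1, gen f2 g2 hf2 hf2b cf2 hg2 hg2b cg2⟩) hw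
  have p2 := mix_zero hT hf0 hone (w := w) (by
    intro c f1 f2 c' g1 g2 hc hc' hf1 hf2 hf1b hf2b hg1 hg2 hg1b hg2b hfe hge w hw
    obtain ⟨cf1, cf2⟩ := clo_of hD hf0 hc hf1 hf2 hf1b hf2b hfe (hcl _ hf0 hf0i)
    obtain ⟨e1, e2⟩ := cst c' g1 g2 hc' hge
    exact ⟨(pc f1 g1 _ w hf1 hf1b cf1 hw e1).1, (pc f1 g2 _ w hf1 hf1b cf1 hw e2).1,
      (pc f2 g1 _ w hf2 hf2b cf2 hw e1).1, (pc f2 g2 _ w hf2 hf2b cf2 hw e2).1⟩) hw
  have p3 := mix_zero hT hone hg0 (w := w) (by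
    intro c f1 f2 c' g1 g2 hc hc' hf1 hf2 hf1b hf2b hg1 hg2 hg1b hg2b hfe hge w hw
    obtain ⟨cg1, cg2⟩ := clo_of hD hg0 hc' hg1 hg2 hg1b hg2b hge (hcl _ hg0 hg0i)
    obtain ⟨e1, e2⟩ := cst c f1 f2 hc hfe
    exact ⟨(pc g1 f1 _ w hg1 hg1b cg1 hw e1).2, (pc g2 f1 _ w hg2 hg2b cg2 hw e1).2,
      (pc g1 f2 _ w hg1 hg1b cg1 hw e2).2, (pc g2 f2 _ w hg2 hg2b cg2 hw e2).2⟩) hw
  filter_upwards [p1, p2, p3] with x z1 z2 z3
  have hz : Z0 (fun n => f (T^[n] x) * g (T.symm^[n] x) * w n -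
      (∫ x, f x ∂μ) * (∫ x, g x ∂μ) * w n) := by
    refine ((z1.add (z2.mul (∫ x, g x ∂μ))).add (z3.mul (∫ x, f x ∂μ))).congr fun n => ?_
    ring
  refine hz.congr' (Eventually.of_forall fun N => ?_)
  show _ = avg T f g w N x - (∫ x, f x ∂μ) * (∫ x, g x ∂μ) * ((∑ n ∈ Finset.Icc 1 N, w n) / N)
  unfold avg
  rw [Finset.sum_sub_distrib, sub_div, ← Finset.mul_sum]
  ring

theorem mix_return {Ω : Type v} [MeasurableSpace Ω] {m : Measure Ω} [IsProbabilityMeasure m]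
    {S : Ω ≃ᵐ Ω} (hS : MeasurePreserving S m m) {h : Ω → ℂ} (hh : MemLp h ⊤ m) :
    ∀ᵐ ω ∂m, ∃ l : ℂ, ∀ (X : Type u) [MeasurableSpace X] (μ : Measure X) [IsProbabilityMeasure μ]
      (T : X ≃ᵐ X), MeasurePreserving T μ μ → IsMix4 T μ → ∀ f g : X → ℂ, MemLp f ⊤ μ →
      MemLp g ⊤ μ → ∀ᵐ x ∂μ, Tendsto (fun N => avg T f g (fun n => h (S^[n] ω)) N x) atTop
        (𝓝 ((∫ x, f x ∂μ) * (∫ x, g x ∂μ) * l)) := by
  filter_upwards [birkhoff_complex hS hh] with ω ⟨hC, l, hl⟩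
  refine ⟨l, ?_⟩
  intro X _ μ _ T hT hK f g hf hg
  filter_upwards [mix_main hT hK hf hg hC] with x hx
  have h1 := hx.add (hl.const_mul ((∫ x, f x ∂μ) * (∫ x, g x ∂μ)))
  rw [zero_add] at h1
  refine h1.congr fun N => ?_
  ring

end Pool.Agent.H85.RTY
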