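import Pool.Agent.H85.RTX.Side
import Pool.Agent.H85.RTY.Defs

/-!
# Bilinear averages of functions with fourfold mixing at a logarithmic rate
-/

namespace Pool.Agent.H85.RTY

open MeasureTheory Finset Filter Topology
open Pool.Agent.H85.RT Pool.Agent.H85.RTM Pool.Agent.H85.RTX

/-- the scales -/
noncomputable def Ms (b : ℝ) (j : ℕ) : ℕ := ⌈Real.exp (((j : ℝ) + 1) ^ b)⌉₊

theorem Ms_ge (b : ℝ) (j : ℕ) : Real.exp (((j : ℝ) + 1) ^ b) ≤ Ms b j := Nat.le_ceil _

theorem Ms_le (b : ℝ) (j : ℕ) : (Ms b j : ℝ) ≤ Real.exp (((j : ℝ) + 1) ^ b) + 1 :=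
  (Nat.ceil_lt_add_one (Real.exp_pos _).le).le

theorem one_le_pow (b : ℝ) (hb : 0 < b) (j : ℕ) : (1 : ℝ) ≤ ((j : ℝ) + 1) ^ b := by
  refine Real.one_le_rpow ?_ hb.le
  have : (0 : ℝ) ≤ j := Nat.cast_nonneg j
  linarith

theorem Ms_two {b : ℝ} (hb : 0 < b) (j : ℕ) : 2 ≤ Ms b j := by
  have h1 := one_le_pow b hb j
  have h2 : (2 : ℝ) ≤ Ms b j := by
    have h3 := Real.add_one_le_exp (((j : ℝ) + 1) ^ b)
    have h4 := Ms_ge b j
    linarith
  exact_mod_cast h2

theorem Ms_log (b : ℝ) (j : ℕ) : ((j : ℝ) + 1) ^ b ≤ Real.log (Ms b j) := by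
  have := Real.log_le_log (Real.exp_pos _) (Ms_ge b j)
  rwa [Real.log_exp] at this

theorem pow_tendsto {b : ℝ} (hb : 0 < b) : Tendsto (fun j : ℕ => ((j : ℝ) + 1) ^ b) atTop atTop := by
  have h1 : Tendsto (fun j : ℕ => (j : ℝ) + 1) atTop atTop :=
    tendsto_atTop_add_const_right _ _ tendsto_natCast_atTop_atTop
  exact (tendsto_rpow_atTop hb).comp h1

theorem Ms_tendsto {b : ℝ} (hb : 0 < b) : Tendsto (Ms b) atTop atTop := by
  have h3 : Tendsto (fun j : ℕ => (Ms b j : ℝ)) atTop atTop :=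
    tendsto_atTop_mono (Ms_ge b) (Real.tendsto_exp_atTop.comp (pow_tendsto hb))
  exact tendsto_natCast_atTop_iff.mp h3

theorem Ms_ratio {b : ℝ} (hb : 0 < b) (hb1 : b < 1) (a : ℝ) (ha : 1 < a) :
    ∀ᶠ j in atTop, ((Ms b (j + 1) ^ 2 : ℕ) : ℝ) ≤ a * (Ms b j ^ 2 : ℕ) := by
  have h1 : Tendsto (fun j : ℕ => (j : ℝ) + 1) atTop atTop :=
    tendsto_atTop_add_const_right _ _ tendsto_natCast_atTop_atTop
  have h2 : Tendsto (fun j : ℕ => ((j : ℝ) + 1 + 1) ^ b - ((j : ℝ) + 1) ^ b) atTop (𝓝 0) := by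
    have hz : Tendsto (fun j : ℕ => b * ((j : ℝ) + 1) ^ (-(1 - b))) atTop (𝓝 0) := by
      have h4 := ((tendsto_rpow_neg_atTop (show 0 < 1 - b by linarith)).comp h1).const_mul b
      rw [mul_zero] at h4
      exact h4
    refine squeeze_zero (fun j => ?_) (fun j => ?_) hz
    · refine sub_nonneg.mpr (Real.rpow_le_rpow (by positivity) (by linarith) hb.le)
    · have hy : (0 : ℝ) < (j : ℝ) + 1 := by positivity
      have e1 : ((j : ℝ) + 1 + 1) = ((j : ℝ) + 1) * (1 + 1 / ((j : ℝ) + 1)) := by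
        field_simp
      have e2 : (1 + 1 / ((j : ℝ) + 1)) ^ b ≤ 1 + b * (1 / ((j : ℝ) + 1)) :=
        rpow_one_add_le_one_add_mul_self (by
          have : (0 : ℝ) ≤ 1 / ((j : ℝ) + 1) := by positivity
          linarith) hb.le hb1.le
      rw [e1, Real.mul_rpow hy.le (by positivity)]
      have e3 : ((j : ℝ) + 1) ^ (-(1 - b)) = ((j : ℝ) + 1) ^ b * (1 / ((j : ℝ) + 1)) := by
        rw [show -(1 - b) = b - 1 by ring, Real.rpow_sub hy, Real.rpow_one]
        ring
      rw [e3]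
      have e4 := mul_le_mul_of_nonneg_left e2 (Real.rpow_nonneg hy.le b)
      nlinarith
  have h3 : Tendsto (fun j : ℕ => Real.exp (-((j : ℝ) + 1) ^ b)) atTop (𝓝 0) :=
    Real.tendsto_exp_neg_atTop_nhds_zero.comp (pow_tendsto hb)
  have h4 : Tendsto (fun j : ℕ => (Real.exp (((j : ℝ) + 1 + 1) ^ b -
      ((j : ℝ) + 1) ^ b) + Real.exp (-((j : ℝ) + 1) ^ b)) ^ 2) atTop (𝓝 1) := by
    have h5 := (((Real.continuous_exp.tendsto 0).comp h2).add h3).pow 2
    rw [Real.exp_zero, add_zero, one_pow] at h5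
    exact h5
  filter_upwards [h4.eventually (gt_mem_nhds ha)] with j hj
  have e0 : (Ms b (j + 1) : ℝ) ≤ (Real.exp (((j : ℝ) + 1 + 1) ^ b -
      ((j : ℝ) + 1) ^ b) + Real.exp (-((j : ℝ) + 1) ^ b)) * Ms b j := by
    have e1 := Ms_le b (j + 1)
    push_cast at e1
    have e2 : (Real.exp (((j : ℝ) + 1 + 1) ^ b - ((j : ℝ) + 1) ^ b) +
        Real.exp (-((j : ℝ) + 1) ^ b)) * Real.exp (((j : ℝ) + 1) ^ b) =
        Real.exp (((j : ℝ) + 1 + 1) ^ b) + 1 := by
      rw [add_mul, ← Real.exp_add, ← Real.exp_add, sub_add_cancel, neg_add_cancel, Real.exp_zero]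
    have e3 := mul_le_mul_of_nonneg_left (Ms_ge b j) (by positivity :
      0 ≤ Real.exp (((j : ℝ) + 1 + 1) ^ b - ((j : ℝ) + 1) ^ b) + Real.exp (-((j : ℝ) + 1) ^ b))
    rw [e2] at e3
    exact e1.trans e3
  push_cast
  calc (Ms b (j + 1) : ℝ) ^ 2 ≤ ((Real.exp (((j : ℝ) + 1 + 1) ^ b -
      ((j : ℝ) + 1) ^ b) + Real.exp (-((j : ℝ) + 1) ^ b)) * Ms b j) ^ 2 :=
        pow_le_pow_left₀ (Nat.cast_nonneg _) e0 2
    _ ≤ a * (Ms b j : ℝ) ^ 2 := by
        rw [mul_pow]
        exact mul_le_mul_of_nonneg_right hj.le (by positivity)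

variable {X : Type*} [MeasurableSpace X] {μ : Measure X} [IsProbabilityMeasure μ]

/-- bounded functions with correlations of size `(log g)^(-a)` at distance `g` -/
theorem log_null {Y : ℕ → X → ℝ} (hm : ∀ n, Measurable (Y n)) (hb : ∀ n x, |Y n x| ≤ 1) {a : ℝ}
    (ha : 1 < a) {C : ℝ} (hC : 0 ≤ C)
    (h : ∀ g : ℕ, 2 ≤ g → ∀ n m, FarI g n m → g ≤ n → g ≤ m →
      |∫ x, Y n x * Y m x ∂μ| ≤ C / Real.log g ^ a) :
    ∀ᵐ x ∂μ, Tendsto (fun N : ℕ => (∑ n ∈ range N, Y n x) / N) atTop (𝓝 0) := by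
  have ha0 : 0 < a := by linarith
  set b : ℝ := (1 + 1 / a) / 2 with hbdef
  have h1a : 1 / a < 1 := by rw [div_lt_one ha0]; exact ha
  have h1a' : 0 < 1 / a := by positivity
  have hb0 : 0 < b := by rw [hbdef]; linarith
  have hb1 : b < 1 := by rw [hbdef]; linarith
  have hab : 1 < b * a := by
    rw [hbdef]
    have : (1 + 1 / a) / 2 * a = (a + 1) / 2 := by field_simp
    rw [this]; linarith
  have hsum : Summable (fun j : ℕ => (4 * a ^ a + C) * (1 / ((j : ℝ) + 1) ^ (b * a))) := by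
    refine Summable.mul_left _ ?_
    have := (summable_nat_add_iff 1).mpr (Real.summable_one_div_nat_rpow.mpr hab)
    simpa using this
  refine null_of_var hm hb (c := fun j => Ms b j ^ 2) (fun j => ?_) ?_ ?_ hsum ?_
  · exact pow_pos (lt_of_lt_of_le two_pos (Ms_two hb0 j)) 2
  · exact tendsto_atTop_mono (fun j => Nat.le_self_pow (by norm_num) (Ms b j)) (Ms_tendsto hb0)
  · exact fun a ha => Ms_ratio hb0 hb1 a ha
  · intro j
    have hM2 := Ms_two hb0 j
    have hMr : (2 : ℝ) ≤ Ms b j := by exact_mod_cast hM2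
    have hM0 : (0 : ℝ) < Ms b j := by linarith
    have hl0 : 0 < Real.log (Ms b j) := Real.log_pos (by linarith)
    have hρ : 0 ≤ C / Real.log (Ms b j) ^ a := by positivity
    refine (var_le hm hb hρ (h (Ms b j) hM2) _).trans ?_
    push_cast
    have hy : (0 : ℝ) < (j : ℝ) + 1 := by positivity
    have hy0 : (0 : ℝ) < ((j : ℝ) + 1) ^ (b * a) := Real.rpow_pos_of_pos hy _
    have hL : ((j : ℝ) + 1) ^ (b * a) ≤ Real.log (Ms b j) ^ a := by
      rw [Real.rpow_mul hy.le]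
      exact Real.rpow_le_rpow (Real.rpow_nonneg hy.le _) (Ms_log b j) ha0.le
    have hK : Real.log (Ms b j) ^ a ≤ a ^ a * Ms b j := by
      have h5 := Real.log_le_rpow_div hM0.le h1a'
      have h6 : (Ms b j : ℝ) ^ (1 / a) / (1 / a) = a * (Ms b j : ℝ) ^ (1 / a) := by
        field_simp
      rw [h6] at h5
      refine (Real.rpow_le_rpow hl0.le h5 ha0.le).trans (le_of_eq ?_)
      rw [Real.mul_rpow ha0.le (Real.rpow_nonneg hM0.le _), ← Real.rpow_mul hM0.le,
        one_div_mul_cancel ha0.ne', Real.rpow_one]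
    have h7 : C / Real.log (Ms b j) ^ a ≤ C * (1 / ((j : ℝ) + 1) ^ (b * a)) := by
      rw [mul_one_div]
      exact div_le_div_of_nonneg_left hC hy0 hL
    have h8 : (1 : ℝ) / Ms b j ≤ a ^ a * (1 / ((j : ℝ) + 1) ^ (b * a)) := by
      rw [mul_one_div, div_le_div_iff₀ hM0 hy0, one_mul]
      exact hL.trans hK
    have e : 4 * (Ms b j : ℝ) * (Ms b j : ℝ) ^ 2 + ((Ms b j : ℝ) ^ 2) ^ 2 *
        (C / Real.log (Ms b j) ^ a) = ((Ms b j : ℝ) ^ 2) ^ 2 *
        (4 * (1 / Ms b j) + C / Real.log (Ms b j) ^ a) := by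
      field_simp
    rw [e]
    have h9 : 4 * (1 / (Ms b j : ℝ)) + C / Real.log (Ms b j) ^ a ≤
        (4 * a ^ a + C) * (1 / ((j : ℝ) + 1) ^ (b * a)) := by
      rw [add_mul]
      have := mul_le_mul_of_nonneg_left h8 (by norm_num : (0 : ℝ) ≤ 4)
      rw [← mul_assoc] at this
      exact add_le_add this h7
    calc ((Ms b j : ℝ) ^ 2) ^ 2 * (4 * (1 / Ms b j) + C / Real.log (Ms b j) ^ a)
        ≤ ((Ms b j : ℝ) ^ 2) ^ 2 * ((4 * a ^ a + C) * (1 / ((j : ℝ) + 1) ^ (b * a))) :=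
          mul_le_mul_of_nonneg_left h9 (by positivity)
      _ = _ := by ring

/-- two functions of the mixing set -/
theorem pair_null {T : X ≃ᵐ X} (hT : MeasurePreserving T μ μ) {a : ℝ} (ha : 1 < a)
    {D : Set (X → ℝ)} (h4 : MixOrder 4 T μ a D) {d e : X → ℝ} (hd : d ∈ D) (he : e ∈ D)
    (hdm : Measurable d) (hem : Measurable e) {K L : ℝ} (hdb : ∀ x, |d x| ≤ K)
    (heb : ∀ x, |e x| ≤ L) {w : ℕ → ℝ} (hw : ∀ n, |w n| ≤ 1) : ∀ᵐ x ∂μ, Bz T d e w x := by
  have hTi : ∀ i, Measurable (T^[i]) := fun i => T.measurable.iterate i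
  have hTs : ∀ i, Measurable (T.symm^[i]) := fun i => T.symm.measurable.iterate i
  obtain ⟨C, hC⟩ := h4 ![e, e, d, d] (by intro i; fin_cases i <;> simp [hd, he])
  set B : ℝ := max K 1 * max L 1 with hB
  have hK1 : (1 : ℝ) ≤ max K 1 := le_max_right _ _
  have hL1 : (1 : ℝ) ≤ max L 1 := le_max_right _ _
  have hB1 : 1 ≤ B := one_le_mul_of_one_le_of_one_le hK1 hL1
  have hB0 : 0 < B := by linarith
  have hb : ∀ n x, |B⁻¹ * (w n * (d (T^[n] x) * e (T.symm^[n] x)))| ≤ 1 := by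
    intro n x
    rw [abs_mul, abs_of_pos (inv_pos.mpr hB0), inv_mul_le_iff₀ hB0, mul_one, abs_mul, abs_mul]
    have h1 : |d (T^[n] x)| ≤ max K 1 := (hdb _).trans (le_max_left _ _)
    have h2 : |e (T.symm^[n] x)| ≤ max L 1 := (heb _).trans (le_max_left _ _)
    calc |w n| * (|d (T^[n] x)| * |e (T.symm^[n] x)|)
        ≤ 1 * (max K 1 * max L 1) :=
          mul_le_mul (hw n) (mul_le_mul h1 h2 (abs_nonneg _) (by linarith)) (by positivity)
            one_pos.le
      _ = B := by rw [one_mul]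
  have main := log_null (μ := μ) (Y := fun n x => B⁻¹ * (w n * (d (T^[n] x) * e (T.symm^[n] x))))
    (fun n => (((hdm.comp (hTi n)).mul (hem.comp (hTs n))).const_mul _).const_mul _) hb ha
    (le_max_right C 0) ?_
  · filter_upwards [main] with x hx
    have h1 := hx.const_mul B
    rw [mul_zero] at h1
    refine h1.congr fun N => ?_
    rw [← mul_div_assoc, Finset.mul_sum]
    congr 1
    refine Finset.sum_congr rfl fun n _ => ?_
    rw [mul_inv_cancel_left₀ hB0.ne']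
  · intro g hg n m hnm hgn hgm
    have hg' : (2 : ℝ) ≤ g := by exact_mod_cast hg
    have hlog : 0 < Real.log g := Real.log_pos (by linarith)
    set M := n + m with hM
    have hsep : ∀ i j : Fin 4, i ≠ j → (![M - n, M - m, M + n, M + m] : Fin 4 → ℕ) i + g ≤
        (![M - n, M - m, M + n, M + m] : Fin 4 → ℕ) j ∨
        (![M - n, M - m, M + n, M + m] : Fin 4 → ℕ) j + g ≤
        (![M - n, M - m, M + n, M + m] : Fin 4 → ℕ) i := by
      intro i j hij
      unfold FarI at hnm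
      fin_cases i <;> fin_cases j <;> simp at hij ⊢ <;> omega
    have h1 := hC g hg _ hsep
    have e1 : ∫ x, ∏ i, (![e, e, d, d] : Fin 4 → X → ℝ) i
        (T^[(![M - n, M - m, M + n, M + m] : Fin 4 → ℕ) i] x) ∂μ =
        ∫ x, (e (T.symm^[n] x) * e (T.symm^[m] x) * d (T^[n] x) * d (T^[m] x)) ∂μ := by
      rw [← int_comp (hT.iterate M) (F := fun x => e (T.symm^[n] x) * e (T.symm^[m] x) *
        d (T^[n] x) * d (T^[m] x)) ((((hem.comp (hTs n)).mul (hem.comp (hTs m))).mul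
          (hdm.comp (hTi n))).mul (hdm.comp (hTi m)))]
      refine integral_congr_ae (Eventually.of_forall fun x => ?_)
      have a1 : T.symm^[n] (T^[M] x) = T^[M - n] x := by
        have h5 : T^[M] x = T^[n] (T^[M - n] x) := by
          rw [← Function.iterate_add_apply]
          congr 2
          omega
        rw [h5]
        exact Function.LeftInverse.iterate (fun x => T.symm_apply_apply x) n _
      have a2 : T.symm^[m] (T^[M] x) = T^[M - m] x := by
        have h5 : T^[M] x = T^[m] (T^[M - m] x) := by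
          rw [← Function.iterate_add_apply]
          congr 2
          omega
        rw [h5]
        exact Function.LeftInverse.iterate (fun x => T.symm_apply_apply x) m _
      have a3 : T^[n] (T^[M] x) = T^[M + n] x := by
        rw [← Function.iterate_add_apply, Nat.add_comm n M]
      have a4 : T^[m] (T^[M] x) = T^[M + m] x := by
        rw [← Function.iterate_add_apply, Nat.add_comm m M]
      simp only [a1, a2, a3, a4, Fin.prod_univ_four]
      rfl
    have e2 : ∫ x, B⁻¹ * (w n * (d (T^[n] x) * e (T.symm^[n] x))) *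
        (B⁻¹ * (w m * (d (T^[m] x) * e (T.symm^[m] x)))) ∂μ = (B⁻¹ * B⁻¹ * (w n * w m)) *
        ∫ x, (e (T.symm^[n] x) * e (T.symm^[m] x) * d (T^[n] x) * d (T^[m] x)) ∂μ := by
      rw [← integral_const_mul]
      refine integral_congr_ae (Eventually.of_forall fun x => ?_)
      simp only
      ring
    rw [e2, ← e1, abs_mul]
    have h2 : |B⁻¹ * B⁻¹ * (w n * w m)| ≤ 1 := by
      have hBi : B⁻¹ ≤ 1 := inv_le_one_of_one_le₀ hB1
      have hBi0 : 0 < B⁻¹ := inv_pos.mpr hB0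
      rw [abs_mul, abs_mul, abs_mul, abs_of_pos hBi0]
      exact mul_le_one₀ (mul_le_one₀ hBi hBi0.le hBi) (by positivity)
        (mul_le_one₀ (hw n) (abs_nonneg _) (hw m))
    calc |B⁻¹ * B⁻¹ * (w n * w m)| * _ ≤ 1 * (C / Real.log g ^ a) :=
          mul_le_mul h2 h1 (abs_nonneg _) one_pos.le
      _ ≤ max C 0 / Real.log g ^ a := by
          rw [one_mul]
          exact div_le_div_of_nonneg_right (le_max_left _ _) (by positivity)

/-- one function of the mixing set and a constant -/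
theorem single_null {T : X ≃ᵐ X} {a : ℝ} (ha : 1 < a)
    {D : Set (X → ℝ)} (h2 : MixOrder 2 T μ a D) {d : X → ℝ} (hd : d ∈ D)
    (hdm : Measurable d) {K : ℝ} (hdb : ∀ x, |d x| ≤ K)
    {w : ℕ → ℝ} (hw : ∀ n, |w n| ≤ 1) : ∀ᵐ x ∂μ, Bz T d (fun _ => 1) w x := by
  have hTi : ∀ i, Measurable (T^[i]) := fun i => T.measurable.iterate i
  obtain ⟨C, hC⟩ := h2 ![d, d] (by intro i; fin_cases i <;> simp [hd])
  set B : ℝ := max K 1 with hB
  have hB1 : (1 : ℝ) ≤ B := le_max_right _ _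
  have hB0 : 0 < B := by linarith
  have hb : ∀ n x, |B⁻¹ * (w n * (d (T^[n] x) * 1))| ≤ 1 := by
    intro n x
    rw [abs_mul, abs_of_pos (inv_pos.mpr hB0), inv_mul_le_iff₀ hB0, mul_one, abs_mul, mul_one]
    have h1 : |d (T^[n] x)| ≤ B := (hdb _).trans (le_max_left _ _)
    calc |w n| * |d (T^[n] x)| ≤ 1 * B := mul_le_mul (hw n) h1 (abs_nonneg _) one_pos.le
      _ = B := one_mul _
  have main := log_null (μ := μ) (Y := fun n x => B⁻¹ * (w n * (d (T^[n] x) * 1)))
    (fun n => (((hdm.comp (hTi n)).mul measurable_const).const_mul _).const_mul _) hb ha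
    (le_max_right C 0) ?_
  · filter_upwards [main] with x hx
    have h1 := hx.const_mul B
    rw [mul_zero] at h1
    refine h1.congr fun N => ?_
    rw [← mul_div_assoc, Finset.mul_sum]
    congr 1
    refine Finset.sum_congr rfl fun n _ => ?_
    rw [mul_inv_cancel_left₀ hB0.ne']
  · intro g hg n m hnm _ _
    have hg' : (2 : ℝ) ≤ g := by exact_mod_cast hg
    have hlog : 0 < Real.log g := Real.log_pos (by linarith)
    have hsep : ∀ i j : Fin 2, i ≠ j → (![n, m] : Fin 2 → ℕ) i + g ≤ (![n, m] : Fin 2 → ℕ) j ∨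
        (![n, m] : Fin 2 → ℕ) j + g ≤ (![n, m] : Fin 2 → ℕ) i := by
      intro i j hij
      unfold FarI at hnm
      fin_cases i <;> fin_cases j <;> simp at hij ⊢ <;> omega
    have h1 := hC g hg _ hsep
    have e1 : ∫ x, ∏ i, (![d, d] : Fin 2 → X → ℝ) i (T^[(![n, m] : Fin 2 → ℕ) i] x) ∂μ =
        ∫ x, (d (T^[n] x) * d (T^[m] x)) ∂μ := by
      refine integral_congr_ae (Eventually.of_forall fun x => ?_)
      simp only [Fin.prod_univ_two]
      rfl
    have e2 : ∫ x, B⁻¹ * (w n * (d (T^[n] x) * 1)) * (B⁻¹ * (w m * (d (T^[m] x) * 1))) ∂μ =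
        (B⁻¹ * B⁻¹ * (w n * w m)) * ∫ x, (d (T^[n] x) * d (T^[m] x)) ∂μ := by
      rw [← integral_const_mul]
      refine integral_congr_ae (Eventually.of_forall fun x => ?_)
      simp only
      ring
    rw [e2, ← e1, abs_mul]
    have h3 : |B⁻¹ * B⁻¹ * (w n * w m)| ≤ 1 := by
      have hBi : B⁻¹ ≤ 1 := inv_le_one_of_one_le₀ hB1
      have hBi0 : 0 < B⁻¹ := inv_pos.mpr hB0
      rw [abs_mul, abs_mul, abs_mul, abs_of_pos hBi0]
      exact mul_le_one₀ (mul_le_one₀ hBi hBi0.le hBi) (by positivity)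
        (mul_le_one₀ (hw n) (abs_nonneg _) (hw m))
    calc |B⁻¹ * B⁻¹ * (w n * w m)| * _ ≤ 1 * (C / Real.log g ^ a) :=
          mul_le_mul h3 h1 (abs_nonneg _) one_pos.le
      _ ≤ max C 0 / Real.log g ^ a := by
          rw [one_mul]
          exact div_le_div_of_nonneg_right (le_max_left _ _) (by positivity)

end Pool.Agent.H85.RTY
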